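import Mathlib
import Pool.Agent.R228.SC.L1

/-!
# MP_94cdcb_an : Minkowski sums of hereditarily SCD sets

We construct a Banach space (`L¹[0,1] × ℝ`) and two (countable, bounded) hereditarily SCD sets
whose Minkowski sum is not SCD.
-/

open Set Filter Topology MeasureTheory
open scoped Pointwise

namespace Pool.Agent.Results.MP_94cdcb_an.SumNotSCD

open Pool.Agent.R228.SC

section Defs

variable {X : Type*} [NormedAddCommGroup X] [NormedSpace ℝ X]

/-- The slice `S(A, x*, ε)`. -/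
def slice (A : Set X) (f : X →L[ℝ] ℝ) (ε : ℝ) : Set X :=
  {x | x ∈ A ∧ sSup (f '' A) - ε < f x}

/-- `(V n)` is determining for `A`. -/
def IsDetermining (A : Set X) (V : ℕ → Set X) : Prop :=
  ∀ B : Set X, (∀ n, (V n ∩ B).Nonempty) → A ⊆ closure (convexHull ℝ B)

/-- `A` (nonempty, bounded) is slicely countably determined. -/
def IsSCD (A : Set X) : Prop :=
  A.Nonempty ∧ Bornology.IsBounded A ∧
    ∃ (f : ℕ → X →L[ℝ] ℝ) (ε : ℕ → ℝ), (∀ n, f n ≠ 0) ∧ (∀ n, 0 < ε n) ∧
      IsDetermining A (fun n => slice A (f n) (ε n))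

/-- `U` (bounded) is hereditarily SCD: every nonempty subset is SCD. -/
def HereditarilySCD (U : Set X) : Prop :=
  Bornology.IsBounded U ∧ ∀ A : Set X, A ⊆ U → A.Nonempty → IsSCD A

/-- a bounded sequence each point of which is cut off by a slice is hereditarily SCD -/
theorem hereditarily_of_isolated (u : ℕ → X) (hb : Bornology.IsBounded (range u))
    (f : ℕ → X →L[ℝ] ℝ) (hf : ∀ n, f n ≠ 0) (gap : ℕ → ℝ) (hgap : ∀ n, 0 < gap n)
    (h : ∀ n m, m ≠ n → f n (u m) + gap n ≤ f n (u n)) : HereditarilySCD (range u) := by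
  classical
  refine ⟨hb, fun A hA hne => ?_⟩
  obtain ⟨a0, ha0⟩ := hne
  obtain ⟨n0, hn0⟩ := hA ha0
  have hn0A : u n0 ∈ A := by rw [hn0]; exact ha0
  set e : ℕ → ℕ := fun k => if u k ∈ A then k else n0 with he
  have heA : ∀ k, u (e k) ∈ A := by
    intro k
    by_cases hk : u k ∈ A
    · simp [he, hk]
    · simp [he, hk, hn0A]
  have hsl : ∀ k, slice A (f (e k)) (gap (e k)) ⊆ {u (e k)} := by
    intro k x hx
    obtain ⟨hxA, hx2⟩ := hx
    have hsup : sSup (f (e k) '' A) = f (e k) (u (e k)) := by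
      apply IsGreatest.csSup_eq
      refine ⟨mem_image_of_mem _ (heA k), ?_⟩
      rintro _ ⟨y, hy, rfl⟩
      obtain ⟨m, rfl⟩ := hA hy
      by_cases hm : m = e k
      · rw [hm]
      · have := h (e k) m hm
        have := hgap (e k)
        linarith
    obtain ⟨m, rfl⟩ := hA hxA
    by_cases hm : m = e k
    · rw [hm]; rfl
    · exfalso
      have := h (e k) m hm
      rw [hsup] at hx2
      linarith
  refine ⟨⟨a0, ha0⟩, hb.subset hA, fun k => f (e k), fun k => gap (e k), fun k => hf _,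
    fun k => hgap _, ?_⟩
  intro B hB x hx
  obtain ⟨k, rfl⟩ := hA hx
  have hek : e k = k := by simp [he, hx]
  obtain ⟨y, hy1, hy2⟩ := hB k
  have := hsl k hy1
  rw [mem_singleton_iff, hek] at this
  subst this
  exact subset_closure (subset_convexHull ℝ B hy2)

end Defs

section Seqs

/-- `τ n = 4^{-(n+1)}` -/
noncomputable def tau (n : ℕ) : ℝ := (1/4) ^ (n+1)

theorem tau_pos (n : ℕ) : 0 < tau n := by unfold tau; positivity

theorem tau_le (n : ℕ) : tau n ≤ 1/4 := by
  unfold tau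
  rw [pow_succ]
  have : ((1:ℝ)/4)^n ≤ 1 := pow_le_one₀ (by norm_num) (by norm_num)
  linarith

theorem tau_lt {m n : ℕ} (h : n < m) : tau m ≤ tau n / 4 := by
  unfold tau
  have h1 : ((1:ℝ)/4)^(m+1) ≤ (1/4)^(n+1+1) := pow_le_pow_of_le_one (by norm_num) (by norm_num)
    (by omega)
  rw [pow_succ _ (n+1)] at h1
  linarith

/-- the rapidly decreasing sequence -/
noncomputable def Es : ℕ → ℝ
  | 0 => 1
  | (n+1) => tau n / 2 * Es n

theorem Es_pos : ∀ n, 0 < Es n
  | 0 => one_pos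
  | (n+1) => by
    rw [Es]; exact mul_pos (half_pos (tau_pos n)) (Es_pos n)

theorem Es_succ_le (n : ℕ) : Es (n+1) ≤ Es n / 8 := by
  rw [Es]
  have := tau_le n
  have h2 := Es_pos n
  nlinarith

theorem Es_anti : Antitone Es := antitone_nat_of_succ_le fun n => by
  have := Es_succ_le n
  have := Es_pos n
  linarith

theorem Es_le (n : ℕ) : Es (n+1) ≤ 1/8 := by
  have h1 := Es_anti (Nat.zero_le n)
  have h2 := Es_succ_le n
  have h3 : Es 0 = 1 := rfl
  rw [h3] at h1
  linarith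

theorem Es_tau (n : ℕ) : Es (n+1) ≤ tau n := by
  rw [Es]
  have h1 := Es_anti (Nat.zero_le n)
  have h3 : Es 0 = 1 := rfl
  rw [h3] at h1
  have h2 := tau_pos n
  have := Es_pos n
  nlinarith

theorem tau_tendsto : Tendsto tau atTop (𝓝 0) := by
  have h := tendsto_pow_atTop_nhds_zero_of_lt_one (r := (1/4:ℝ)) (by norm_num) (by norm_num)
  exact (tendsto_add_atTop_iff_nat 1).mpr h

theorem separable_X0 : TopologicalSpace.SeparableSpace X0 := by
  have : Fact ((1:ENNReal) ≠ ⊤) := ⟨ENNReal.one_ne_top⟩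
  have : SecondCountableTopology X0 := Lp.SecondCountableTopology
  infer_instance

/-- unit vectors approximating every unit vector infinitely often -/
theorem exists_dense_unit : ∃ v : ℕ → X0, (∀ n, ‖v n‖ = 1) ∧
    ∀ z : X0, ‖z‖ = 1 → ∀ η : ℝ, 0 < η → ∀ N : ℕ, ∃ n, N ≤ n ∧ ‖v n - z‖ ≤ η := by
  classical
  have := separable_X0
  obtain ⟨e, he⟩ : ∃ e : X0, ‖e‖ = 1 := exists_norm_eq X0 zero_le_one
  let q : ℕ → X0 := TopologicalSpace.denseSeq X0
  let nrm : X0 → X0 := fun x => if x = 0 then e else ‖x‖⁻¹ • x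
  have hn : ∀ x, ‖nrm x‖ = 1 := by
    intro x
    by_cases hx : x = 0
    · simp [nrm, hx, he]
    · have : ‖x‖ ≠ 0 := norm_ne_zero_iff.mpr hx
      simp only [nrm, hx, if_false]
      rw [norm_smul, norm_inv, norm_norm, inv_mul_cancel₀ this]
  refine ⟨fun n => nrm (q (Nat.unpair n).1), fun n => hn _, ?_⟩
  intro z hz η hη N
  set ρ : ℝ := min (η/2) (1/2) with hρ
  have hρ0 : 0 < ρ := lt_min (by linarith) (by norm_num)
  obtain ⟨j, hj⟩ := (TopologicalSpace.denseRange_denseSeq X0).exists_dist_lt z hρ0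
  refine ⟨Nat.pair j N, Nat.right_le_pair _ _, ?_⟩
  change ‖nrm (q (Nat.unpair (Nat.pair j N)).1) - z‖ ≤ η
  rw [Nat.unpair_pair]
  change ‖nrm (q j) - z‖ ≤ η
  rw [dist_eq_norm] at hj
  have hj' : ‖z - q j‖ < ρ := hj
  have h1 : |‖z‖ - ‖q j‖| < ρ := (abs_norm_sub_norm_le _ _).trans_lt hj'
  rw [hz, abs_lt] at h1
  have hρ2 : ρ ≤ 1/2 := min_le_right _ _
  have hρ3 : ρ ≤ η/2 := min_le_left _ _
  have hq0 : q j ≠ 0 := by
    intro h0
    rw [h0, norm_zero] at h1
    linarith
  have hqn : 0 < ‖q j‖ := norm_pos_iff.mpr hq0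
  have h2 : ‖nrm (q j) - q j‖ = |1 - ‖q j‖| := by
    simp only [nrm, hq0, if_false]
    have : ‖q j‖⁻¹ • q j - q j = (‖q j‖⁻¹ - 1) • q j := by rw [sub_smul, one_smul]
    rw [this, norm_smul, Real.norm_eq_abs]
    rw [← abs_of_pos hqn, ← abs_mul, abs_of_pos hqn, sub_mul, inv_mul_cancel₀ hqn.ne', one_mul]
  have h3 : |1 - ‖q j‖| ≤ ρ := abs_le.mpr ⟨by linarith, by linarith⟩
  calc ‖nrm (q j) - z‖ ≤ ‖nrm (q j) - q j‖ + ‖q j - z‖ := by
        have : nrm (q j) - z = (nrm (q j) - q j) + (q j - z) := by abel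
        rw [this]; exact norm_add_le _ _
    _ ≤ ρ + ρ := by
        rw [h2, norm_sub_rev (q j) z]; linarith
    _ ≤ η := by linarith

end Seqs

section Main

variable (v : ℕ → X0)

/-- the points `w n = (1 - E (n+1)) v n` -/
noncomputable def w (n : ℕ) : X0 := (1 - Es (n+1)) • v n

/-- the points of `U₁` (`θ = 1`) and of `U₂` (`θ = -1`) -/
noncomputable def pt (θ : ℝ) (n : ℕ) : X0 × ℝ := (w v n, θ * (1 - tau n))

/-- the sets `U₁` (`θ = 1`) and `U₂` (`θ = -1`) -/
def U (θ : ℝ) : Set (X0 × ℝ) := range (pt v θ)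

variable {v}

theorem norm_w (hv : ∀ n, ‖v n‖ = 1) (n : ℕ) : ‖w v n‖ = 1 - Es (n+1) := by
  unfold w
  have := Es_le n
  rw [norm_smul, hv n, mul_one, Real.norm_eq_abs, abs_of_nonneg (by linarith)]

theorem norm_w_le (hv : ∀ n, ‖v n‖ = 1) (n : ℕ) : ‖w v n‖ ≤ 1 := by
  rw [norm_w hv]
  have := Es_pos (n+1)
  linarith

theorem norm_w_sub (hv : ∀ n, ‖v n‖ = 1) (n : ℕ) : ‖w v n - v n‖ = Es (n+1) := by
  unfold w
  have h : (1 - Es (n+1)) • v n - v n = -(Es (n+1) • v n) := by
    rw [sub_smul, one_smul]; abel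
  rw [h, norm_neg, norm_smul, hv n, mul_one, Real.norm_eq_abs, abs_of_pos (Es_pos _)]

theorem bounded_U (hv : ∀ n, ‖v n‖ = 1) (θ : ℝ) (hθ : |θ| = 1) :
    Bornology.IsBounded (range (pt v θ)) := by
  rw [isBounded_iff_forall_norm_le]
  refine ⟨1, ?_⟩
  rintro _ ⟨n, rfl⟩
  rw [pt, Prod.norm_mk, max_le_iff]
  refine ⟨norm_w_le hv n, ?_⟩
  rw [Real.norm_eq_abs, abs_mul, hθ, one_mul, abs_le]
  have := tau_pos n
  have := tau_le n
  constructor <;> linarith

theorem hered_U (hv : ∀ n, ‖v n‖ = 1) (θ : ℝ) (hθ : θ = 1 ∨ θ = -1) :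
    HereditarilySCD (range (pt v θ)) := by
  have hθ1 : |θ| = 1 := by rcases hθ with h | h <;> rw [h] <;> simp
  have hθ2 : θ * θ = 1 := by rcases hθ with h | h <;> rw [h] <;> norm_num
  choose g hg1 hg2 using fun n => exists_dual_vector ℝ (v n) (by rw [hv n]; exact one_ne_zero)
  let f : ℕ → (X0 × ℝ) →L[ℝ] ℝ := fun n =>
    (1 / Es n) • ((g n).comp (ContinuousLinearMap.fst ℝ X0 ℝ)) -
      θ • (ContinuousLinearMap.snd ℝ X0 ℝ)
  have hfv : ∀ n x t, f n (x, t) = (1 / Es n) * g n x - θ * t := by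
    intro n x t
    simp [f]
  refine hereditarily_of_isolated (pt v θ) (bounded_U hv θ hθ1) f ?_ (fun n => tau n / 4)
    (fun n => by have := tau_pos n; linarith) ?_
  · intro n hn
    have h1 : f n (0, 1) = 0 := by rw [hn]; rfl
    rw [hfv, map_zero, mul_zero, mul_one, zero_sub, neg_eq_zero] at h1
    rw [h1] at hθ1
    simp at hθ1
  · intro n m hmn
    rw [pt, pt, hfv, hfv]
    have hgn : g n (w v n) = 1 - Es (n+1) := by
      unfold w
      rw [map_smul, hg2, hv n]
      simp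
    have hgm : g n (w v m) ≤ 1 - Es (m+1) := by
      have h1 := (g n).le_opNorm (w v m)
      rw [hg1, one_mul, norm_w hv] at h1
      exact (le_abs_self _).trans h1
    rw [hgn]
    have e1 : θ * (θ * (1 - tau m)) = 1 - tau m := by rw [← mul_assoc, hθ2, one_mul]
    have e2 : θ * (θ * (1 - tau n)) = 1 - tau n := by rw [← mul_assoc, hθ2, one_mul]
    rw [e1, e2]
    have hE := Es_pos n
    have hi : 0 < 1 / Es n := by positivity
    have hEn : (1 / Es n) * Es (n+1) = tau n / 2 := by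
      rw [Es]; field_simp
    have h2 : (1 / Es n) * g n (w v m) ≤ (1 / Es n) * (1 - Es (m+1)) :=
      mul_le_mul_of_nonneg_left hgm hi.le
    rcases lt_or_gt_of_ne hmn with h | h
    · -- m < n
      have h3 : Es n ≤ Es (m+1) := Es_anti h
      have h4 : 1 ≤ (1 / Es n) * Es (m+1) := by
        rw [one_div, ← div_eq_inv_mul, le_div_iff₀ hE]; linarith
      have h5 := tau_pos n
      have h6 := tau_le n
      have h7 := tau_le m
      have h8 := tau_pos m
      nlinarith
    · -- n < m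
      have h3 := tau_lt h
      have h5 := tau_pos n
      have h4 : 0 ≤ (1 / Es n) * Es (m+1) := by have := Es_pos (m+1); positivity
      nlinarith

/-- the property guaranteed for the first coordinate of the chosen points -/
def Good (F : Finset X0) (η : ℝ) (y : X0) : Prop :=
  ∃ (h g : X0) (E : Set ℝ) (hE : MeasurableSet E), y = h + g ∧ ‖h‖ ≤ 1 ∧ 1 - η ≤ ‖g‖ ∧
    ‖res Eᶜ hE.compl g‖ ≤ η ∧ (∀ f ∈ F, ‖res E hE f‖ ≤ η) ∧ ‖res E hE h‖ ≤ η

theorem pick (hv : ∀ n, ‖v n‖ = 1)
    (hd : ∀ z : X0, ‖z‖ = 1 → ∀ η : ℝ, 0 < η → ∀ N : ℕ, ∃ n, N ≤ n ∧ ‖v n - z‖ ≤ η)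
    (θ : ℝ) (hθ : θ = 1 ∨ θ = -1) (φ : (X0 × ℝ) →L[ℝ] ℝ) (δ : ℝ) (hδ : 0 < δ)
    (hr : 0 ≤ θ * φ (0, 1)) (F : Finset X0) (η : ℝ) (hη : 0 < η) :
    ∃ b ∈ slice (range (pt v θ) + range (pt v (-θ))) φ δ, Good F η b.1 := by
  classical
  have hθ1 : |θ| = 1 := by rcases hθ with h | h <;> rw [h] <;> simp
  have hθ1' : |-θ| = 1 := by rw [abs_neg, hθ1]
  set r : ℝ := φ (0, 1) with hrdef
  let xs : X0 →L[ℝ] ℝ := φ.comp (ContinuousLinearMap.inl ℝ X0 ℝ)
  have hφ : ∀ x t, φ (x, t) = xs x + r * t := by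
    intro x t
    have : ((x, t) : X0 × ℝ) = (x, 0) + t • (0, 1) := by simp
    rw [this, map_add, map_smul, smul_eq_mul, mul_comm]
    rfl
  -- the partner
  have hne2 : (φ '' range (pt v (-θ))).Nonempty := (range_nonempty _).image _
  have hbd2 : BddAbove (φ '' range (pt v (-θ))) := by
    have hb := (bounded_U hv (-θ) hθ1')
    rw [isBounded_iff_forall_norm_le] at hb
    obtain ⟨C, hC⟩ := hb
    refine ⟨‖φ‖ * C, ?_⟩
    rintro _ ⟨x, hx, rfl⟩
    exact (le_abs_self _).trans ((φ.le_opNorm x).trans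
      (mul_le_mul_of_nonneg_left (hC x hx) (norm_nonneg _)))
  obtain ⟨_, ⟨_, ⟨m, rfl⟩, rfl⟩, hm⟩ := exists_lt_of_lt_csSup hne2
    (show sSup (φ '' range (pt v (-θ))) - δ/2 < sSup (φ '' range (pt v (-θ))) by linarith)
  -- the localized vector
  set ρ : ℝ := min (η/4) (δ / (32 * (‖xs‖ + 1))) with hρ
  have hxs : 0 ≤ ‖xs‖ := norm_nonneg _
  have hρ0 : 0 < ρ := lt_min (by linarith) (by positivity)
  have hρη : ρ ≤ η/4 := min_le_left _ _
  have hρδ : ρ * (‖xs‖ + 1) ≤ δ / 32 := by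
    have h1 : ρ ≤ δ / (32 * (‖xs‖ + 1)) := min_le_right _ _
    rw [le_div_iff₀ (by positivity)] at h1
    linarith
  obtain ⟨E, hE, z, hz1, hz2, hz3, hzF⟩ := local_unit xs (δ/16) (by linarith)
    (insert (w v m) F) (η) hη
  have hev : ∀ᶠ n in atTop, tau n ≤ ρ ∧ |r| * tau n ≤ δ / 16 := by
    have h1 : ∀ᶠ n in atTop, tau n ≤ ρ := tau_tendsto.eventually_le_const hρ0
    have h2 : Tendsto (fun n => |r| * tau n) atTop (𝓝 0) := by
      have := tau_tendsto.const_mul (|r|)
      simpa using this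
    exact h1.and (h2.eventually_le_const (by linarith))
  obtain ⟨N, hN⟩ := eventually_atTop.mp hev
  obtain ⟨n, hn, hvn⟩ := hd z hz1 ρ hρ0 N
  obtain ⟨hn1, hn2⟩ := hN n hn
  have hwz : ‖w v n - z‖ ≤ 2 * ρ := by
    calc ‖w v n - z‖ ≤ ‖w v n - v n‖ + ‖v n - z‖ := by
          have : w v n - z = (w v n - v n) + (v n - z) := by abel
          rw [this]; exact norm_add_le _ _
      _ ≤ 2 * ρ := by
          rw [norm_w_sub hv]
          have := Es_tau n
          linarith
  refine ⟨pt v θ n + pt v (-θ) m, ⟨add_mem_add (mem_range_self n) (mem_range_self m), ?_⟩, ?_⟩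
  · -- the slice
    have hsup : sSup (φ '' (range (pt v θ) + range (pt v (-θ)))) ≤
        ‖xs‖ + |r| + sSup (φ '' range (pt v (-θ))) := by
      apply csSup_le (((range_nonempty _).add (range_nonempty _)).image _)
      rintro _ ⟨_, ⟨_, ⟨i, rfl⟩, y, hy, rfl⟩, rfl⟩
      change φ (pt v θ i + y) ≤ _
      rw [map_add]
      have h1 : φ y ≤ sSup (φ '' range (pt v (-θ))) := le_csSup hbd2 (mem_image_of_mem _ hy)
      have h2 : φ (pt v θ i) ≤ ‖xs‖ + |r| := by
        rw [pt, hφ]
        have h3 : xs (w v i) ≤ ‖xs‖ := by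
          have h4 := xs.le_opNorm (w v i)
          have h5 := norm_w_le hv i
          have h6 : ‖xs‖ * ‖w v i‖ ≤ ‖xs‖ * 1 := mul_le_mul_of_nonneg_left h5 hxs
          rw [mul_one] at h6
          exact (le_abs_self _).trans (h4.trans h6)
        have h4 : r * (θ * (1 - tau i)) ≤ |r| := by
          refine (le_abs_self _).trans ?_
          rw [abs_mul, abs_mul, hθ1, one_mul]
          have h5 := tau_pos i
          have h6 := tau_le i
          rw [abs_of_nonneg (by linarith : 0 ≤ 1 - tau i)]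
          nlinarith [abs_nonneg r]
        linarith
      linarith
    rw [map_add]
    have hθr : r * θ = |r| := by
      have h1 : |r| = |θ * r| := by rw [abs_mul, hθ1, one_mul]
      rw [h1, abs_of_nonneg hr, mul_comm]
    have h1 : ‖xs‖ + |r| - δ / 4 ≤ φ (pt v θ n) := by
      rw [pt, hφ]
      have h2 : xs (w v n) = xs z + xs (w v n - z) := by rw [map_sub]; ring
      have h3 : |xs (w v n - z)| ≤ ‖xs‖ * (2 * ρ) :=
        (xs.le_opNorm _).trans (mul_le_mul_of_nonneg_left hwz hxs)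
      have h4 := (abs_le.mp h3).1
      have h5 : r * (θ * (1 - tau n)) = |r| - |r| * tau n := by
        rw [← mul_assoc, hθr]; ring
      rw [h2, h5]
      nlinarith
    linarith
  · refine ⟨w v m, w v n, E, hE, ?_, norm_w_le hv m, ?_, ?_, ?_, ?_⟩
    · change w v n + w v m = _
      rw [add_comm]
    · have h1 : ‖z‖ ≤ ‖w v n‖ + ‖w v n - z‖ := by
        have h2 : z = w v n - (w v n - z) := by abel
        calc ‖z‖ = ‖w v n - (w v n - z)‖ := by rw [← h2]
          _ ≤ _ := norm_sub_le _ _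
      rw [hz1] at h1
      linarith
    · have h1 : res Eᶜ hE.compl (w v n) = res Eᶜ hE.compl (w v n - z) := by
        rw [map_sub, hz3, sub_zero]
      rw [h1]
      have h2 := norm_split Eᶜ hE.compl (w v n - z)
      have h3 := norm_nonneg (res Eᶜᶜ hE.compl.compl (w v n - z))
      linarith
    · intro f hf
      exact hzF f (Finset.mem_insert_of_mem hf)
    · exact hzF _ (Finset.mem_insert_self _ _)

/-- the key estimate -/
theorem good_step {F : Finset X0} {η : ℝ} {y : X0} (hη : 0 ≤ η) (hy : Good F η y) (u : X0)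
    (hu : ∀ (E : Set ℝ) (hE : MeasurableSet E), (∀ f ∈ F, ‖res E hE f‖ ≤ η) →
      ‖res E hE u‖ ≤ 2 * η) (l : ℝ) (hl0 : 0 ≤ l) (hl1 : l ≤ 1) :
    ‖u‖ - 9 * η ≤ ‖u - l • y‖ := by
  obtain ⟨h, g, E, hE, rfl, hh, hg, hgc, hF, hhE⟩ := hy
  have hu' := hu E hE hF
  obtain ⟨x, hx⟩ : ∃ x : X0, x = u - l • h := ⟨_, rfl⟩
  have e1 : u - l • (h + g) = x - l • g := by rw [hx, smul_add]; abel
  rw [e1]
  have h1 : ‖u‖ - l ≤ ‖x‖ := by
    have : ‖u‖ ≤ ‖x‖ + ‖l • h‖ := by
      calc ‖u‖ = ‖x + l • h‖ := by rw [hx]; congr 1; abel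
        _ ≤ _ := norm_add_le _ _
    rw [norm_smul, Real.norm_eq_abs, abs_of_nonneg hl0] at this
    nlinarith
  have h2 : ‖res E hE x‖ ≤ 3 * η := by
    rw [hx, map_sub, map_smul]
    have := norm_sub_le (res E hE u) (l • res E hE h)
    rw [norm_smul, Real.norm_eq_abs, abs_of_nonneg hl0] at this
    have h3 := norm_nonneg (res E hE h)
    nlinarith
  have h3 := norm_split E hE (x - l • g)
  have h4 : l * ‖res E hE g‖ - ‖res E hE x‖ ≤ ‖res E hE (x - l • g)‖ := by
    rw [map_sub, map_smul]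
    have := norm_sub_norm_le (l • res E hE g) (res E hE x)
    rw [norm_smul, Real.norm_eq_abs, abs_of_nonneg hl0, norm_sub_rev] at this
    exact this
  have h5 : ‖res Eᶜ hE.compl x‖ - l * ‖res Eᶜ hE.compl g‖ ≤ ‖res Eᶜ hE.compl (x - l • g)‖ := by
    rw [map_sub, map_smul]
    have := norm_sub_norm_le (res Eᶜ hE.compl x) (l • res Eᶜ hE.compl g)
    rw [norm_smul, Real.norm_eq_abs, abs_of_nonneg hl0] at this
    exact this
  have h6 := norm_split E hE x
  have h7 := norm_split E hE g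
  nlinarith

/-- finite convex combinations of a sequence, in a convenient form -/
theorem convexHull_range_sub {Y : Type*} [AddCommGroup Y] [Module ℝ Y] (b : ℕ → Y) (p : Y)
    (hp : p ∈ convexHull ℝ (range b)) :
    ∃ (n : ℕ) (l : ℕ → ℝ), (∀ k, 0 ≤ l k) ∧ ∑ k ∈ Finset.range n, l k = 1 ∧
      p = ∑ k ∈ Finset.range n, l k • b k := by
  classical
  let K : Set Y := {p | ∃ (n : ℕ) (l : ℕ → ℝ), (∀ k, 0 ≤ l k) ∧ (∀ k, n ≤ k → l k = 0) ∧
    ∑ k ∈ Finset.range n, l k = 1 ∧ p = ∑ k ∈ Finset.range n, l k • b k}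
  have hK : Convex ℝ K := by
    rintro p ⟨n, l, hl0, hln, hl1, rfl⟩ q ⟨m, r, hr0, hrm, hr1, rfl⟩ α β hα hβ hαβ
    have ext1 : ∀ N, n ≤ N → ∑ k ∈ Finset.range N, l k = 1 ∧
        ∑ k ∈ Finset.range N, l k • b k = ∑ k ∈ Finset.range n, l k • b k := by
      intro N hN
      have hsub : Finset.range n ⊆ Finset.range N := Finset.range_mono hN
      constructor
      · rw [← hl1]; symm
        apply Finset.sum_subset hsub
        intro k _ hk
        exact hln k (by simpa using hk)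
      · symm
        apply Finset.sum_subset hsub
        intro k _ hk
        rw [hln k (by simpa using hk), zero_smul]
    have ext2 : ∀ N, m ≤ N → ∑ k ∈ Finset.range N, r k = 1 ∧
        ∑ k ∈ Finset.range N, r k • b k = ∑ k ∈ Finset.range m, r k • b k := by
      intro N hN
      have hsub : Finset.range m ⊆ Finset.range N := Finset.range_mono hN
      constructor
      · rw [← hr1]; symm
        apply Finset.sum_subset hsub
        intro k _ hk
        exact hrm k (by simpa using hk)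
      · symm
        apply Finset.sum_subset hsub
        intro k _ hk
        rw [hrm k (by simpa using hk), zero_smul]
    obtain ⟨a1, a2⟩ := ext1 (max n m) (le_max_left _ _)
    obtain ⟨a3, a4⟩ := ext2 (max n m) (le_max_right _ _)
    refine ⟨max n m, fun k => α * l k + β * r k, ?_, ?_, ?_, ?_⟩
    · intro k
      have := hl0 k
      have := hr0 k
      positivity
    · intro k hk
      change α * l k + β * r k = 0
      rw [hln k ((le_max_left _ _).trans hk), hrm k ((le_max_right _ _).trans hk)]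
      simp
    · rw [Finset.sum_add_distrib, ← Finset.mul_sum, ← Finset.mul_sum, a1, a3]
      simpa using hαβ
    · rw [← a2, ← a4, Finset.smul_sum, Finset.smul_sum, ← Finset.sum_add_distrib]
      apply Finset.sum_congr rfl
      intro k _
      rw [add_smul, mul_smul, mul_smul]
  have hb : range b ⊆ K := by
    rintro _ ⟨j, rfl⟩
    refine ⟨j+1, fun k => if k = j then 1 else 0, ?_, ?_, ?_, ?_⟩
    · intro k; dsimp only; split_ifs <;> norm_num
    · intro k hk
      have : k ≠ j := by omega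
      simp [this]
    · simp
    · simp
  obtain ⟨n, l, h0, _, h1, h2⟩ := convexHull_min hb hK hp
  exact ⟨n, l, h0, h1, h2⟩

theorem not_scd (hv : ∀ n, ‖v n‖ = 1)
    (hd : ∀ z : X0, ‖z‖ = 1 → ∀ η : ℝ, 0 < η → ∀ N : ℕ, ∃ n, N ≤ n ∧ ‖v n - z‖ ≤ η) :
    ¬ IsSCD (range (pt v 1) + range (pt v (-1))) := by
  classical
  rintro ⟨_, _, f, δ, hf, hδ, hdet⟩
  set A := range (pt v 1) + range (pt v (-1)) with hA
  -- one can pick good points in every slice
  have hpick : ∀ (n : ℕ) (F : Finset X0), ∃ b ∈ slice A (f n) (δ n),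
      Good F ((1/4)^n / 100) b.1 := by
    intro n F
    have hη : (0:ℝ) < (1/4)^n / 100 := by positivity
    rcases le_total 0 ((f n) (0, 1)) with h | h
    · exact pick hv hd 1 (Or.inl rfl) (f n) (δ n) (hδ n) (by simpa using h) F _ hη
    · have := pick hv hd (-1) (Or.inr rfl) (f n) (δ n) (hδ n) (by simpa using h) F _ hη
      rw [neg_neg, add_comm] at this
      exact this
  choose pk hpk1 hpk2 using hpick
  set a : X0 := w v 0 + w v 0 with ha
  let FF : ℕ → Finset X0 := fun n => Nat.rec {a} (fun n F => insert (pk n F).1 F) n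
  have hFF0 : FF 0 = {a} := rfl
  have hFFs : ∀ n, FF (n+1) = insert (pk n (FF n)).1 (FF n) := fun n => rfl
  let b : ℕ → X0 × ℝ := fun n => pk n (FF n)
  have haF : ∀ n, a ∈ FF n := by
    intro n
    induction n with
    | zero => rw [hFF0]; simp
    | succ n ih => rw [hFFs]; exact Finset.mem_insert_of_mem ih
  have hbF : ∀ n k, k < n → (b k).1 ∈ FF n := by
    intro n
    induction n with
    | zero => intro k hk; omega
    | succ n ih =>
      intro k hk
      rw [hFFs]
      rcases Nat.lt_succ_iff_lt_or_eq.mp hk with h | h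
      · exact Finset.mem_insert_of_mem (ih k h)
      · rw [h]; exact Finset.mem_insert_self _ _
  have key : ∀ (l : ℕ → ℝ), (∀ k, 0 ≤ l k) → ∀ n, ∑ k ∈ Finset.range n, l k ≤ 1 →
      ‖a‖ - 9 * ∑ k ∈ Finset.range n, ((1/4:ℝ)^k / 100) ≤
        ‖a - ∑ k ∈ Finset.range n, l k • (b k).1‖ := by
    intro l hl n
    induction n with
    | zero => intro _; simp
    | succ n ih =>
      intro hsum
      rw [Finset.sum_range_succ] at hsum
      have hs0 : 0 ≤ ∑ k ∈ Finset.range n, l k := Finset.sum_nonneg fun k _ => hl k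
      have ih' := ih (by have := hl n; linarith)
      rw [Finset.sum_range_succ, Finset.sum_range_succ, ← sub_sub]
      have hη : (0:ℝ) ≤ (1/4)^n / 100 := by positivity
      have hst := good_step hη (hpk2 n (FF n)) (a - ∑ k ∈ Finset.range n, l k • (b k).1) ?_ (l n)
        (hl n) (by linarith)
      · have : (pk n (FF n)).1 = (b n).1 := rfl
        rw [this] at hst
        linarith
      · intro E hE hsm
        rw [map_sub, map_sum]
        refine (norm_sub_le _ _).trans ?_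
        have h1 : ‖res E hE a‖ ≤ (1/4)^n / 100 := hsm a (haF n)
        have h2 : ‖∑ k ∈ Finset.range n, res E hE (l k • (b k).1)‖ ≤
            ∑ k ∈ Finset.range n, l k * ((1/4)^n / 100) := by
          refine (norm_sum_le _ _).trans ?_
          apply Finset.sum_le_sum
          intro k hk
          rw [map_smul, norm_smul, Real.norm_eq_abs, abs_of_nonneg (hl k)]
          exact mul_le_mul_of_nonneg_left (hsm _ (hbF n k (Finset.mem_range.mp hk))) (hl k)
        rw [← Finset.sum_mul] at h2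
        have h3 : (∑ k ∈ Finset.range n, l k) * ((1/4)^n / 100) ≤ 1 * ((1/4)^n / 100) :=
          mul_le_mul_of_nonneg_right (by have := hl n; linarith) hη
        linarith
  have hgeo : ∀ n, ∑ k ∈ Finset.range n, ((1/4:ℝ)^k / 100) ≤ 1/50 := by
    intro n
    have h1 : ∑ k ∈ Finset.range n, ((1/4:ℝ)^k / 100) = (1 - (1/4)^n) / 75 := by
      induction n with
      | zero => simp
      | succ n ih => rw [Finset.sum_range_succ, ih, pow_succ]; ring
    rw [h1]
    have : (0:ℝ) < (1/4)^n := by positivity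
    linarith
  have hna : 7/4 ≤ ‖a‖ := by
    have h1 : a = (2:ℝ) • w v 0 := by rw [ha, two_smul]
    rw [h1, norm_smul, norm_w hv]
    have := Es_le 0
    norm_num
    linarith
  -- the point `(a, 0)` of `A` is far from the convex hull of the chosen points
  have haA : ((a, 0) : X0 × ℝ) ∈ A := by
    refine ⟨pt v 1 0, mem_range_self 0, pt v (-1) 0, mem_range_self 0, ?_⟩
    simp [pt, ha]
  have hcl := hdet (range b) (fun n => ⟨b n, hpk1 n (FF n), mem_range_self n⟩) haA
  rw [Metric.mem_closure_iff] at hcl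
  obtain ⟨p, hp, hdist⟩ := hcl 1 one_pos
  obtain ⟨n, l, hl0, hl1, rfl⟩ := convexHull_range_sub b p hp
  have h1 := key l hl0 n hl1.le
  have h2 := hgeo n
  have h3 : ‖a - ∑ k ∈ Finset.range n, l k • (b k).1‖ ≤
      dist ((a, 0) : X0 × ℝ) (∑ k ∈ Finset.range n, l k • b k) := by
    rw [dist_eq_norm, Prod.norm_def]
    refine le_trans (le_of_eq ?_) (le_max_left _ _)
    rw [Prod.fst_sub, Prod.fst_sum]
    rfl
  linarith

end Main

/-- **MP_94cdcb_an, Q1 (yes).** There are a Banach space `X` and two hereditarily SCD sets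
`U₁, U₂ ⊆ X` whose Minkowski sum is (bounded, nonempty and) not SCD. -/
theorem result : ∃ (X : Type) (_ : NormedAddCommGroup X) (_ : NormedSpace ℝ X)
    (_ : CompleteSpace X) (U₁ U₂ : Set X),
    U₁.Nonempty ∧ U₂.Nonempty ∧ HereditarilySCD U₁ ∧ HereditarilySCD U₂ ∧
      Bornology.IsBounded (U₁ + U₂) ∧ ¬ IsSCD (U₁ + U₂) := by
  obtain ⟨v, hv, hd⟩ := exists_dense_unit
  have h1 := hered_U hv 1 (Or.inl rfl)
  have h2 := hered_U hv (-1) (Or.inr rfl)
  exact ⟨X0 × ℝ, inferInstance, inferInstance, inferInstance, range (pt v 1), range (pt v (-1)),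
    range_nonempty _, range_nonempty _, h1, h2, h1.1.add h2.1, not_scd hv hd⟩

end Pool.Agent.Results.MP_94cdcb_an.SumNotSCD
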